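import Mathlib
import Pool.Agent.Q291.HEA.Stm

/-!
# HEA, job S4 (helper190 for helper291)
-/

set_option autoImplicit false

namespace Pool.Agent.Q190.HEA

open Pool.Agent.Q291.HEA

theorem t_S4 : P_S4A → P_S4B → P_S4 := by
  intro hA hB p hp hp2
  set K : ℕ := ⌊1 / p⌋₊ with hK
  have h1 : (K : ℝ) ≤ 1 / p := Nat.floor_le (by positivity)
  have h2 : 1 / p < (K : ℝ) + 1 := Nat.lt_floor_add_one (1 / p)
  have hK2 : 2 ≤ K := by
    apply Nat.le_floor
    rw [le_div_iff₀ hp]
    push_cast
    linarith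
  have hKR : (2 : ℝ) ≤ K := by exact_mod_cast hK2
  have h3 : (K : ℝ) * p ≤ 1 := by
    rw [le_div_iff₀ hp] at h1
    exact h1
  have h4 : 1 < ((K : ℝ) + 1) * p := by
    rw [div_lt_iff₀ hp] at h2
    exact h2
  by_cases hc : K ≤ 23
  · refine ⟨K, p - (1 - K * p), 1 - K * p, hK2, by linarith, by linarith, by ring, by linarith, ?_⟩
    have h5 := hB K hK2 hc (p - (1 - K * p)) (1 - K * p) (by linarith) (by linarith) (by ring)
    have h6 : p - (1 - K * p) + (1 - K * p) = p := by ring
    rw [h6] at h5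
    linarith
  · have hK24 : 24 ≤ K := by omega
    have hKR24 : (24 : ℝ) ≤ K := by exact_mod_cast hK24
    have hKpos : (0 : ℝ) < K := by linarith
    refine ⟨K, 1 / K, 0, hK2, by positivity, le_rfl, ?_, ?_, ?_⟩
    · field_simp
      ring
    · rw [add_zero, le_div_iff₀ hKpos]
      linarith
    · have h5 := hA K hK24
      have h6 : (1 : ℝ) / K ≤ 25 / 24 * p := by
        rw [div_le_iff₀ hKpos]
        nlinarith
      linarith

end Pool.Agent.Q190.HEA
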